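import Pool.Agent.H274R3.Dim.Lower

set_option autoImplicit false

/-!
# An oracle relative to which `NP` has intermediate polynomial-time dimension

There is an oracle `A` with `1 / 2 ≤ dim (NP^A) ≤ 31 / 32`, where `dim` is the polynomial-time
dimension relative to `A`.

Idea. The hard language is `L = {y | ∃ u, |u| ≤ |y| ^ 3, (y, u) ∈ A}`. The string number `k` is of
the first kind if `k` is even and of the second kind if `k` is odd. The oracle is built in stages,
each of them for a long interval of lengths and one verifier `M`. At the beginning of a stage one
looks at the contents that the oracle could have at the pairs `(y, u)` with `y` of the first kind,
when it has no pair with `y` of the second kind. If for one such content `M` accepts at least one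
quarter of the strings of a certain length `n`, then this content is put into the oracle, and
the strings of the second kind are made hard, with witnesses that are not asked for by the
accepting computations; so it is known in advance that these strings are accepted. Otherwise
the strings of the first kind are made hard, and whatever is done with them, less than one quarter
of the strings of length `n` are accepted. In both cases one can win on the strings of length `n`
without knowing the hard bits. The bets are told to the gales (but not to the verifiers) by a table
at exponentially long positions of the oracle. The hard bits, one half of all bits, are
chosen against a mixture of all polynomial-time computable gales, with witnesses that these gales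
have not asked for.
-/

namespace Pool.Agent.Results.MP_e55146_lc.IntermediateDimension

open Pool.Agent.H628R3.RO Pool.Agent.H274R3.Dim

/-- For some oracle `A` the `p^A`-dimension of `NP^A` is between `1 / 2` and `31 / 32`. -/
theorem result : ∃ A : Oracle, 1 / 2 ≤ dimP A (classNP A) ∧ dimP A (classNP A) ≤ 31 / 32 :=
  main

end Pool.Agent.Results.MP_e55146_lc.IntermediateDimension
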